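import Pool.Agent.Lib.MP_1bb0e8_an.Defs

/-! # leaf: points of the boundary are limits of values at points tending to the circle -/

set_option autoImplicit false

open Filter Topology

namespace SiegelPE

theorem boundary_seq (ψ : ℂ → ℂ) (S : Set ℂ) (hS : IsOpen S)
    (hψ : ContinuousOn ψ (Metric.ball 0 1)) (hb : Set.BijOn ψ (Metric.ball 0 1) S)
    {p : ℂ} (hp : p ∈ frontier S) (r ε : ℝ) (hr : r < 1) (hε : 0 < ε) :
    ∃ (s : ℝ) (t : Circle), r < s ∧ 0 < s ∧ s < 1 ∧ ‖ψ ((s : ℂ) * t) - p‖ < ε := by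
  rw [hS.frontier_eq] at hp
  obtain ⟨hpc, hpS⟩ := hp
  have hr1 : max r 0 < 1 := max_lt hr one_pos
  have hsub : Metric.closedBall (0 : ℂ) (max r 0) ⊆ Metric.ball 0 1 :=
    Metric.closedBall_subset_ball hr1
  have hK : IsCompact (ψ '' Metric.closedBall (0 : ℂ) (max r 0)) :=
    (isCompact_closedBall 0 (max r 0)).image_of_continuousOn (hψ.mono hsub)
  have hpK : p ∉ ψ '' Metric.closedBall (0 : ℂ) (max r 0) := by
    rintro ⟨z, hz, rfl⟩
    exact hpS (hb.mapsTo (hsub hz))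
  obtain ⟨δ, hδ, hδK⟩ := Metric.isOpen_iff.mp hK.isClosed.isOpen_compl p hpK
  obtain ⟨w, hwS, hw⟩ := Metric.mem_closure_iff.mp hpc (min δ ε) (lt_min hδ hε)
  obtain ⟨z, hz, rfl⟩ := hb.surjOn hwS
  have hzK : max r 0 < ‖z‖ := by
    by_contra hle
    push Not at hle
    have h1 : ψ z ∈ (ψ '' Metric.closedBall (0 : ℂ) (max r 0))ᶜ :=
      hδK (by
        rw [Metric.mem_ball, dist_comm]
        exact hw.trans_le (min_le_left _ _))
    exact h1 ⟨z, by simpa using hle, rfl⟩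
  have hz1 : ‖z‖ < 1 := by simpa using hz
  refine ⟨‖z‖, Circle.exp (Complex.arg z), (le_max_left _ _).trans_lt hzK,
    (le_max_right _ _).trans_lt hzK, hz1, ?_⟩
  rw [Circle.coe_exp, Complex.norm_mul_exp_arg_mul_I, ← dist_eq_norm, dist_comm]
  exact hw.trans_le (min_le_right _ _)

end SiegelPE
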