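import Pool.Agent.Lib.MP_1bb0e8_an.Defs

/-! # leaf: the set of the radii without limit is a countable union of `G_δ` sets -/

set_option autoImplicit false

open Filter Topology

namespace SiegelPE

private theorem bor_pos (i : ℕ) : (0 : ℝ) < 1 - 1 / ((i : ℝ) + 2) := by
  have h : (0 : ℝ) < (i : ℝ) + 2 := by positivity
  rw [sub_pos, div_lt_one h]
  have : (0 : ℝ) ≤ i := Nat.cast_nonneg i
  linarith

private theorem bor_lt (i : ℕ) : 1 - 1 / ((i : ℝ) + 2) < 1 := by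
  have h : (0 : ℝ) < 1 / ((i : ℝ) + 2) := by positivity
  linarith

private theorem bor_nolim (γ : ℝ → ℂ) :
    NoLim γ ↔ ∃ j : ℕ, ∀ i : ℕ, ∃ s ∈ Set.Ioo (1 - 1 / ((i : ℝ) + 2)) 1,
      ∃ s' ∈ Set.Ioo (1 - 1 / ((i : ℝ) + 2)) 1, 1 / ((j : ℝ) + 1) < dist (γ s) (γ s') := by
  constructor
  · intro h
    by_contra hcon
    push Not at hcon
    apply h
    rw [← cauchy_map_iff_exists_tendsto, Metric.cauchy_iff]
    refine ⟨inferInstance, fun ε hε => ?_⟩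
    obtain ⟨j, hj⟩ := exists_nat_one_div_lt hε
    obtain ⟨i, hi⟩ := hcon j
    refine ⟨γ '' Set.Ioo (1 - 1 / ((i : ℝ) + 2)) 1, image_mem_map (Ioo_mem_nhdsLT (bor_lt i)), ?_⟩
    rintro _ ⟨s, hs, rfl⟩ _ ⟨s', hs', rfl⟩
    exact (hi s hs s' hs').trans_lt hj
  · rintro ⟨j, hj⟩ ⟨w, hw⟩
    have hε : (0 : ℝ) < 1 / ((j : ℝ) + 1) / 2 := by positivity
    have h1 : ∀ᶠ s in 𝓝[<] (1 : ℝ), dist (γ s) w < 1 / ((j : ℝ) + 1) / 2 :=
      hw (Metric.ball_mem_nhds w hε)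
    obtain ⟨a, ha, hsub⟩ := (mem_nhdsLT_iff_exists_Ioo_subset).1 h1
    obtain ⟨i, hi⟩ := exists_nat_one_div_lt (sub_pos.2 (Set.mem_Iio.1 ha))
    have hai : a < 1 - 1 / ((i : ℝ) + 2) := by
      have h2 : 1 / ((i : ℝ) + 2) ≤ 1 / ((i : ℝ) + 1) :=
        one_div_le_one_div_of_le (by positivity) (by linarith)
      linarith
    obtain ⟨s, hs, s', hs', hd⟩ := hj i
    have e1 : dist (γ s) w < 1 / ((j : ℝ) + 1) / 2 := hsub ⟨hai.trans hs.1, hs.2⟩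
    have e2 : dist (γ s') w < 1 / ((j : ℝ) + 1) / 2 := hsub ⟨hai.trans hs'.1, hs'.2⟩
    have e3 := dist_triangle_right (γ s) (γ s') w
    linarith

theorem nolim_eq_iUnion (F : ℝ → Circle → ℂ)
    (hF : ContinuousOn (fun q : ℝ × Circle => F q.1 q.2) (Set.Ioo (0 : ℝ) 1 ×ˢ Set.univ)) :
    ∃ G : ℕ → Set Circle, (∀ j, IsGδ (G j)) ∧
      {t : Circle | NoLim (fun s => F s t)} = ⋃ j, G j := by
  have hcont : ∀ s ∈ Set.Ioo (0 : ℝ) 1, Continuous (fun t : Circle => F s t) := by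
    intro s hs
    have h1 : Continuous (fun t : Circle => ((s, t) : ℝ × Circle)) := by fun_prop
    exact hF.comp_continuous h1 (fun t => ⟨hs, Set.mem_univ t⟩)
  refine ⟨fun j => ⋂ i : ℕ, ⋃ s ∈ Set.Ioo (1 - 1 / ((i : ℝ) + 2)) 1,
    ⋃ s' ∈ Set.Ioo (1 - 1 / ((i : ℝ) + 2)) 1,
      {t : Circle | 1 / ((j : ℝ) + 1) < dist (F s t) (F s' t)}, ?_, ?_⟩
  · intro j
    refine IsGδ.iInter_of_isOpen fun i => ?_
    refine isOpen_biUnion fun s hs => isOpen_biUnion fun s' hs' => ?_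
    have hs0 : s ∈ Set.Ioo (0 : ℝ) 1 := ⟨(bor_pos i).trans hs.1, hs.2⟩
    have hs0' : s' ∈ Set.Ioo (0 : ℝ) 1 := ⟨(bor_pos i).trans hs'.1, hs'.2⟩
    exact isOpen_lt continuous_const ((hcont s hs0).dist (hcont s' hs0'))
  · ext t
    rw [Set.mem_ofPred_eq, bor_nolim]
    simp only [Set.mem_iUnion, Set.mem_iInter, Set.mem_ofPred_eq, exists_prop]

end SiegelPE
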