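import Pool.Agent.Lib.MP_1bb0e8_an.Defs

/-! # leaf: the map of the exterior is bounded near the circle -/

set_option autoImplicit false

open Filter Topology

namespace SiegelPE

theorem bound_E (c : ℂ) (u : Circle) (φ : ℂ → ℂ) (hφ : ContinuousOn φ {z : ℂ | 1 < ‖z‖})
    (he : ∀ z : ℂ, 1 < ‖z‖ → φ ((u : ℂ) * z ^ 2) = quad c (φ z)) :
    ∃ B : ℝ, ∀ z : ℂ, 1 < ‖z‖ → ‖z‖ ≤ 4 → ‖φ z‖ ≤ B := by
  have hK : IsCompact (Metric.closedBall (0 : ℂ) 4 ∩ {z : ℂ | 2 ≤ ‖z‖}) :=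
    (isCompact_closedBall 0 4).inter_right (isClosed_le continuous_const continuous_norm)
  obtain ⟨A, hA⟩ := hK.exists_bound_of_continuousOn (hφ.mono fun z hz => by
    have h1 : (2 : ℝ) ≤ ‖z‖ := hz.2
    show 1 < ‖z‖
    linarith)
  obtain ⟨B, hB⟩ : ∃ B : ℝ, B = max A (1 + ‖c‖) := ⟨_, rfl⟩
  have hB1 : A ≤ B := by rw [hB]; exact le_max_left _ _
  have hB2 : 1 + ‖c‖ ≤ B := by rw [hB]; exact le_max_right _ _
  have hc0 : 0 ≤ ‖c‖ := norm_nonneg c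
  have key : ∀ n : ℕ, ∀ z : ℂ, 1 < ‖z‖ → 2 ≤ ‖z‖ ^ (2 ^ n) → ‖z‖ ^ (2 ^ n) ≤ 4 → ‖φ z‖ ≤ B := by
    intro n
    induction n with
    | zero =>
      intro z _ h2 h4
      rw [pow_zero, pow_one] at h2 h4
      exact (hA z ⟨by rw [Metric.mem_closedBall, dist_zero_right]; exact h4, h2⟩).trans hB1
    | succ n ih =>
      intro z h1 h2 h4
      have hu : ‖(u : ℂ)‖ = 1 := Circle.norm_coe u
      have hn : ‖(u : ℂ) * z ^ 2‖ = ‖z‖ ^ 2 := by rw [norm_mul, hu, one_mul, norm_pow]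
      have hp : ‖(u : ℂ) * z ^ 2‖ ^ (2 ^ n) = ‖z‖ ^ (2 ^ (n + 1)) := by
        rw [hn, ← pow_mul, pow_succ' 2 n]
      have h5 := ih ((u : ℂ) * z ^ 2) (by rw [hn]; nlinarith) (by rw [hp]; exact h2)
        (by rw [hp]; exact h4)
      rw [he z h1] at h5
      have h6 : ‖φ z‖ ^ 2 ≤ B + ‖c‖ := by
        have h7 : φ z ^ 2 = quad c (φ z) - c := by unfold quad; ring
        calc ‖φ z‖ ^ 2 = ‖quad c (φ z) - c‖ := by rw [← norm_pow, h7]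
          _ ≤ ‖quad c (φ z)‖ + ‖c‖ := norm_sub_le _ _
          _ ≤ B + ‖c‖ := by linarith
      by_contra hcon
      have h8 : B < ‖φ z‖ := not_le.1 hcon
      nlinarith [norm_nonneg (φ z)]
  refine ⟨B, fun z h1 h4 => ?_⟩
  have hex : ∃ n : ℕ, 2 ≤ ‖z‖ ^ (2 ^ n) := by
    obtain ⟨n, hn⟩ := pow_unbounded_of_one_lt (2 : ℝ) h1
    exact ⟨n, hn.le.trans (pow_le_pow_right₀ h1.le Nat.lt_two_pow_self.le)⟩
  classical
  have hf := Nat.find_spec hex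
  rcases Nat.eq_zero_or_pos (Nat.find hex) with h0 | h0
  · refine key (Nat.find hex) z h1 hf ?_
    rw [h0, pow_zero, pow_one]
    exact h4
  · obtain ⟨k, hk⟩ : ∃ k, Nat.find hex = k + 1 := ⟨Nat.find hex - 1, by omega⟩
    have h5 : ¬ 2 ≤ ‖z‖ ^ (2 ^ k) := Nat.find_min hex (by omega)
    refine key (Nat.find hex) z h1 hf ?_
    rw [hk, pow_succ 2 k, pow_mul]
    have h6 : ‖z‖ ^ (2 ^ k) < 2 := not_le.1 h5
    have h7 : 0 ≤ ‖z‖ ^ (2 ^ k) := by positivity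
    nlinarith

end SiegelPE
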