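import Pool.Agent.Lib.MP_1bb0e8_an.Defs

/-! # leaf: the linearising map is bounded -/

set_option autoImplicit false

open Filter Topology

namespace SiegelPE

theorem bound_S (c : ℂ) (l : Circle) (ψ : ℂ → ℂ) (hψ : ContinuousOn ψ (Metric.ball 0 1))
    (he : ∀ z ∈ Metric.ball (0 : ℂ) 1, ψ ((l : ℂ) * z) = quad c (ψ z)) :
    ∀ z ∈ Metric.ball (0 : ℂ) 1, ‖ψ z‖ ≤ 1 + ‖c‖ := by
  intro z hz
  have hz1 : ‖z‖ < 1 := by simpa using hz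
  have hsub : Metric.sphere (0 : ℂ) ‖z‖ ⊆ Metric.ball 0 1 := fun y hy => by
    rw [mem_sphere_zero_iff_norm] at hy
    rw [mem_ball_zero_iff, hy]
    exact hz1
  have hzS : z ∈ Metric.sphere (0 : ℂ) ‖z‖ := by rw [mem_sphere_zero_iff_norm]
  obtain ⟨w, hw, hmax⟩ := (isCompact_sphere (0 : ℂ) ‖z‖).exists_isMaxOn ⟨z, hzS⟩
    ((hψ.mono hsub).norm)
  have h1 : ‖ψ z‖ ≤ ‖ψ w‖ := hmax hzS
  refine h1.trans ?_
  have hlw : (l : ℂ) * w ∈ Metric.sphere (0 : ℂ) ‖z‖ := by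
    rw [mem_sphere_zero_iff_norm] at hw ⊢
    rw [norm_mul, Circle.norm_coe, one_mul, hw]
  have h2 : ‖ψ ((l : ℂ) * w)‖ ≤ ‖ψ w‖ := hmax hlw
  have h3 : ψ w ^ 2 = ψ ((l : ℂ) * w) - c := by
    rw [he w (hsub hw), quad]
    ring
  have h4 : ‖ψ w‖ ^ 2 ≤ ‖ψ w‖ + ‖c‖ := by
    rw [← norm_pow, h3]
    exact (norm_sub_le _ _).trans (add_le_add h2 le_rfl)
  by_contra h5
  rw [not_le] at h5
  have h6 := norm_nonneg c
  nlinarith [norm_nonneg (ψ w)]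

end SiegelPE
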