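import Pool.Agent.Lib.MP_1bb0e8_an.Defs

/-! # leaf: continuity in polar coordinates; the parameter `s ^ 2` -/

set_option autoImplicit false

open Filter Topology

namespace SiegelPE

theorem cont_S (ψ : ℂ → ℂ) (hψ : ContinuousOn ψ (Metric.ball 0 1)) :
    ContinuousOn (fun q : ℝ × Circle => ψ ((q.1 : ℂ) * q.2)) (Set.Ioo (0 : ℝ) 1 ×ˢ Set.univ) := by
  have h1 : Continuous (fun q : ℝ × Circle => (q.1 : ℂ) * (q.2 : ℂ)) :=
    (Complex.continuous_ofReal.comp continuous_fst).mul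
      (continuous_subtype_val.comp continuous_snd)
  refine hψ.comp h1.continuousOn ?_
  rintro q ⟨hq, -⟩
  rw [mem_ball_zero_iff, norm_mul, Circle.norm_coe, mul_one, Complex.norm_real, Real.norm_eq_abs,
    abs_of_pos hq.1]
  exact hq.2

theorem cont_E (φ : ℂ → ℂ) (hφ : ContinuousOn φ {z : ℂ | 1 < ‖z‖}) :
    ContinuousOn (fun q : ℝ × Circle => φ (((q.1⁻¹ : ℝ) : ℂ) * q.2))
      (Set.Ioo (0 : ℝ) 1 ×ˢ Set.univ) := by
  have h0 : ContinuousOn (fun q : ℝ × Circle => (q.1⁻¹ : ℝ)) (Set.Ioo (0 : ℝ) 1 ×ˢ Set.univ) :=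
    ContinuousOn.inv₀ continuous_fst.continuousOn (fun q hq => hq.1.1.ne')
  have h1 : ContinuousOn (fun q : ℝ × Circle => ((q.1⁻¹ : ℝ) : ℂ) * (q.2 : ℂ))
      (Set.Ioo (0 : ℝ) 1 ×ˢ Set.univ) :=
    (Complex.continuous_ofReal.comp_continuousOn h0).mul
      (continuous_subtype_val.comp continuous_snd).continuousOn
  refine hφ.comp h1 ?_
  rintro q ⟨hq, -⟩
  have h2 : 0 < q.1⁻¹ := inv_pos.2 hq.1
  change 1 < ‖((q.1⁻¹ : ℝ) : ℂ) * (q.2 : ℂ)‖
  rw [norm_mul, Circle.norm_coe, mul_one, Complex.norm_real, Real.norm_eq_abs, abs_of_pos h2]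
  exact (one_lt_inv₀ hq.1).2 hq.2

/-- The limit at `1` from the left does not change under `s ↦ s ^ 2`. -/
theorem lim_sq_param (γ : ℝ → ℂ) (w : ℂ) :
    Tendsto (fun s => γ (s ^ 2)) (𝓝[<] 1) (𝓝 w) ↔ Tendsto γ (𝓝[<] 1) (𝓝 w) := by
  have hpos : ∀ᶠ s : ℝ in 𝓝[<] 1, 0 < s := by
    have : Set.Ioi (0 : ℝ) ∈ 𝓝 (1 : ℝ) := Ioi_mem_nhds one_pos
    exact mem_nhdsWithin_of_mem_nhds this
  have hlt : ∀ᶠ s : ℝ in 𝓝[<] 1, s < 1 := self_mem_nhdsWithin
  have hsq : Tendsto (fun s : ℝ => s ^ 2) (𝓝[<] 1) (𝓝[<] 1) := by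
    refine tendsto_nhdsWithin_iff.2 ⟨?_, ?_⟩
    · have h : Tendsto (fun s : ℝ => s ^ 2) (𝓝 1) (𝓝 (1 ^ 2)) := (continuous_pow 2).tendsto 1
      rw [one_pow] at h
      exact h.mono_left nhdsWithin_le_nhds
    · filter_upwards [hpos, hlt] with s h1 h2
      change s ^ 2 < 1
      nlinarith
  have hrt : Tendsto (fun s : ℝ => √s) (𝓝[<] 1) (𝓝[<] 1) := by
    refine tendsto_nhdsWithin_iff.2 ⟨?_, ?_⟩
    · have h : Tendsto (fun s : ℝ => √s) (𝓝 1) (𝓝 (√1)) := Real.continuous_sqrt.tendsto 1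
      rw [Real.sqrt_one] at h
      exact h.mono_left nhdsWithin_le_nhds
    · filter_upwards [hlt] with s h2
      change √s < 1
      rw [Real.sqrt_lt' one_pos, one_pow]
      exact h2
  constructor
  · intro h
    refine (h.comp hrt).congr' ?_
    filter_upwards [hpos] with s h1
    change γ (√s ^ 2) = γ s
    rw [Real.sq_sqrt h1.le]
  · intro h
    exact h.comp hsq

end SiegelPE
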