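import Mathlib

/-!
# MP_1bb0e8_an: radial cluster sets (helper56)
-/

set_option autoImplicit false

open Filter Topology

namespace SiegelPE

/-- The quadratic polynomial `z ^ 2 + c`. -/
def quad (c z : ℂ) : ℂ := z ^ 2 + c

/-- The radial cluster set `P_S(t)` of `ψ` (defined on the unit disk) at the point `t` of the unit
circle. -/
def PS (ψ : ℂ → ℂ) (t : Circle) : Set ℂ :=
  ⋂ r : {r : ℝ // r < 1}, closure {w | ∃ s : ℝ, r.1 < s ∧ 0 < s ∧ s < 1 ∧ w = ψ ((s : ℂ) * t)}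

/-- The radial cluster set `P(t)` of `φ` (defined outside the closed unit disk) at the point `t` of
the unit circle. -/
def PE (φ : ℂ → ℂ) (t : Circle) : Set ℂ :=
  ⋂ r : {r : ℝ // 1 < r}, closure {w | ∃ s : ℝ, 1 < s ∧ s < r.1 ∧ w = φ ((s : ℂ) * t)}

/-- The cluster set of the path `γ` at `1` from the left. -/
def Cl (γ : ℝ → ℂ) : Set ℂ :=
  ⋂ r : {r : ℝ // r < 1}, closure {w | ∃ s : ℝ, r.1 < s ∧ 0 < s ∧ s < 1 ∧ w = γ s}

/-- The path `γ` has no limit at `1` from the left. -/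
def NoLim (γ : ℝ → ℂ) : Prop := ¬ ∃ w, Tendsto γ (𝓝[<] 1) (𝓝 w)

end SiegelPE
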