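import Pool.Agent.Lib.MP_1bb0e8_an.Defs

/-! # leaf: the roots of unity of order a power of two are dense and countable -/

set_option autoImplicit false

open Filter Topology

namespace SiegelPE

private theorem tendsto_floor_dyadic (a : ℝ) :
    Tendsto (fun m : ℕ => (⌊(2 : ℝ) ^ m * a⌋ : ℝ) / (2 : ℝ) ^ m) atTop (𝓝 a) := by
  have h1 : Tendsto (fun m : ℕ => a - 1 / (2 : ℝ) ^ m) atTop (𝓝 a) := by
    have h2 : Tendsto (fun m : ℕ => ((1 : ℝ) / 2) ^ m) atTop (𝓝 0) :=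
      tendsto_pow_atTop_nhds_zero_of_lt_one (by norm_num) (by norm_num)
    have h3 : Tendsto (fun m : ℕ => a - ((1 : ℝ) / 2) ^ m) atTop (𝓝 (a - 0)) :=
      tendsto_const_nhds.sub h2
    rw [sub_zero] at h3
    refine h3.congr fun m => ?_
    rw [div_pow, one_pow]
  refine tendsto_of_tendsto_of_tendsto_of_le_of_le h1 tendsto_const_nhds (fun m => ?_)
    (fun m => ?_)
  · have hp : (0 : ℝ) < 2 ^ m := by positivity
    have h2 := Int.lt_floor_add_one ((2 : ℝ) ^ m * a)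
    show a - 1 / (2 : ℝ) ^ m ≤ (⌊(2 : ℝ) ^ m * a⌋ : ℝ) / (2 : ℝ) ^ m
    rw [le_div_iff₀ hp]
    have h3 : (a - 1 / (2 : ℝ) ^ m) * 2 ^ m = 2 ^ m * a - 1 := by
      field_simp
    rw [h3]
    linarith
  · have hp : (0 : ℝ) < 2 ^ m := by positivity
    have h2 := Int.floor_le ((2 : ℝ) ^ m * a)
    show (⌊(2 : ℝ) ^ m * a⌋ : ℝ) / (2 : ℝ) ^ m ≤ a
    rw [div_le_iff₀ hp]
    linarith

theorem dense_dyadic : Dense {w : Circle | ∃ m : ℕ, w ^ (2 ^ m) = 1} := by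
  intro w
  set a : ℝ := Complex.arg w / (2 * Real.pi) with ha
  have hpi : (2 * Real.pi) ≠ 0 := by positivity
  have h1 : Tendsto (fun m : ℕ => Circle.exp
      (2 * Real.pi * ((⌊(2 : ℝ) ^ m * a⌋ : ℝ) / (2 : ℝ) ^ m))) atTop (𝓝 w) := by
    have h2 : Tendsto (fun m : ℕ => 2 * Real.pi * ((⌊(2 : ℝ) ^ m * a⌋ : ℝ) / (2 : ℝ) ^ m))
        atTop (𝓝 (2 * Real.pi * a)) := (tendsto_floor_dyadic a).const_mul _
    have h3 : 2 * Real.pi * a = Complex.arg w := by
      rw [ha]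
      field_simp
    rw [h3] at h2
    have h4 := ((map_continuous Circle.exp).tendsto (Complex.arg w)).comp h2
    rw [Circle.exp_arg] at h4
    exact h4
  refine mem_closure_of_tendsto h1 (Eventually.of_forall fun m => ⟨m, ?_⟩)
  apply Circle.ext
  rw [Circle.coe_pow, Circle.coe_exp, ← Complex.exp_nat_mul, Circle.coe_one]
  have h5 : (((2 ^ m : ℕ) : ℕ) : ℂ) *
      (((2 * Real.pi * ((⌊(2 : ℝ) ^ m * a⌋ : ℝ) / (2 : ℝ) ^ m) : ℝ) : ℂ) * Complex.I)
      = (⌊(2 : ℝ) ^ m * a⌋ : ℤ) * (2 * Real.pi * Complex.I) := by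
    have hp : ((2 : ℂ) ^ m) ≠ 0 := pow_ne_zero _ two_ne_zero
    push_cast
    field_simp
  rw [h5]
  exact Complex.exp_int_mul_two_pi_mul_I _

theorem countable_dyadic : {w : Circle | ∃ m : ℕ, w ^ (2 ^ m) = 1}.Countable := by
  have h1 : {w : Circle | ∃ m : ℕ, w ^ (2 ^ m) = 1} = ⋃ m : ℕ, {w : Circle | w ^ (2 ^ m) = 1} := by
    ext w
    simp
  rw [h1]
  refine Set.countable_iUnion fun m => Set.Finite.countable ?_
  have h2 : {z : ℂ | z ^ (2 ^ m) = 1}.Finite := by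
    refine Set.Finite.subset ((Polynomial.nthRoots (2 ^ m) (1 : ℂ)).toFinset.finite_toSet) ?_
    intro z hz
    simp only [Finset.mem_coe, Multiset.mem_toFinset]
    rw [Polynomial.mem_nthRoots (by positivity)]
    exact hz
  have h3 : {w : Circle | w ^ (2 ^ m) = 1} = (fun w : Circle => (w : ℂ)) ⁻¹' {z : ℂ | z ^ (2 ^ m) = 1} := by
    ext w
    show w ^ (2 ^ m) = 1 ↔ (w : ℂ) ^ (2 ^ m) = 1
    rw [← Circle.coe_pow]
    constructor
    · intro h
      rw [h, Circle.coe_one]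
    · intro h
      apply Circle.ext
      rw [h, Circle.coe_one]
  rw [h3]
  exact h2.preimage (Circle.coe_injective.injOn)

end SiegelPE
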