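import Pool.Agent.Lib.MP_1bb0e8_an.Defs

/-! # leaf: the cluster set of a bounded path is a point iff the path has a limit -/

set_option autoImplicit false

open Filter Topology

namespace SiegelPE

private theorem cln_mem (γ : ℝ → ℂ) (w : ℂ) : w ∈ Cl γ ↔ MapClusterPt w (𝓝[<] (1 : ℝ)) γ := by
  rw [mapClusterPt_iff_frequently]
  unfold Cl
  rw [Set.mem_iInter]
  constructor
  · intro h s hs
    rw [Filter.frequently_iff]
    intro U hU
    obtain ⟨l, hl, hlU⟩ := (mem_nhdsLT_iff_exists_Ioo_subset).1 hU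
    have h1 := h ⟨l, hl⟩
    rw [mem_closure_iff_nhds] at h1
    obtain ⟨z, hz, a, ha1, _, ha3, rfl⟩ := h1 s hs
    exact ⟨a, hlU ⟨ha1, ha3⟩, hz⟩
  · rintro h ⟨r, hr⟩
    rw [mem_closure_iff_nhds]
    intro t ht
    have h1 : ∀ᶠ a in 𝓝[<] (1 : ℝ), a ∈ Set.Ioo (max r 0) 1 :=
      Ioo_mem_nhdsLT (max_lt hr one_pos)
    obtain ⟨a, ha, ha2⟩ := ((h t ht).and_eventually h1).exists
    exact ⟨γ a, ha, a, (le_max_left _ _).trans_lt ha2.1, (le_max_right _ _).trans_lt ha2.1,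
      ha2.2, rfl⟩

theorem cl_nontrivial_iff (γ : ℝ → ℂ) {r B : ℝ} (hr : r < 1)
    (hB : ∀ s : ℝ, r < s → s < 1 → ‖γ s‖ ≤ B) : (Cl γ).Nontrivial ↔ NoLim γ := by
  constructor
  · rintro ⟨w, hw, w', hw', hne⟩ ⟨w0, h0⟩
    have key : ∀ v ∈ Cl γ, v = w0 := by
      intro v hv
      rw [cln_mem] at hv
      have h1 : ClusterPt v (𝓝 w0) := ClusterPt.mono hv h0
      haveI : NeBot (𝓝 v ⊓ 𝓝 w0) := h1
      exact eq_of_nhds_neBot inferInstance
    exact hne ((key w hw).trans (key w' hw').symm)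
  · intro h
    by_contra hcon
    rw [Set.not_nontrivial_iff] at hcon
    have hK : IsCompact (Metric.closedBall (0 : ℂ) B) := isCompact_closedBall 0 B
    have hev : ∀ᶠ s in 𝓝[<] (1 : ℝ), γ s ∈ Metric.closedBall (0 : ℂ) B := by
      filter_upwards [Ioo_mem_nhdsLT hr] with s hs
      rw [mem_closedBall_zero_iff]
      exact hB s hs.1 hs.2
    obtain ⟨w, _, hw⟩ := hK.exists_clusterPt (f := map γ (𝓝[<] (1 : ℝ)))
      (le_principal_iff.2 hev)
    have hwC : w ∈ Cl γ := (cln_mem γ w).2 hw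
    refine h ⟨w, hK.tendsto_nhds_of_unique_mapClusterPt hev fun x _ hx => ?_⟩
    exact hcon ((cln_mem γ x).2 hx) hwC

end SiegelPE
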