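import Pool.Agent.Lib.MP_1bb0e8_an.Defs

/-! # leaf: dense sets of rotations -/

set_option autoImplicit false

open Filter Topology

namespace SiegelPE

theorem dense_pow (l : Circle) (hl : ∀ n : ℕ, 0 < n → l ^ n ≠ 1) :
    Dense (Set.range (fun n : ℕ => l ^ n)) := by
  have : Fact ((0 : ℝ) < 1) := ⟨one_pos⟩
  have hT : (1 : ℝ) ≠ 0 := one_ne_zero
  let e : AddCircle (1 : ℝ) ≃ₜ Circle := AddCircle.homeomorphCircle hT
  obtain ⟨a, ha⟩ : ∃ a : AddCircle (1 : ℝ), AddCircle.toCircle a = l := by
    refine ⟨e.symm l, ?_⟩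
    have h1 : e (e.symm l) = l := e.apply_symm_apply l
    rw [← AddCircle.homeomorphCircle_apply hT]
    exact h1
  have hord : addOrderOf a = 0 := by
    rw [addOrderOf_eq_zero_iff']
    intro n hn h0
    apply hl n hn
    rw [← ha, ← AddCircle.toCircle_nsmul, h0, AddCircle.toCircle_zero]
  have hd : DenseRange (fun n : ℤ => n • a) := AddCircle.denseRange_zsmul_iff.mpr hord
  have hc : DenseRange (e ∘ fun n : ℤ => n • a) :=
    e.surjective.denseRange.comp hd e.continuous
  have hz : DenseRange (fun n : ℤ => l ^ n) := by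
    have h2 : (e ∘ fun n : ℤ => n • a) = fun n : ℤ => l ^ n := by
      funext n
      simp only [Function.comp, e, AddCircle.homeomorphCircle_apply, AddCircle.toCircle_zsmul, ha]
    rw [h2] at hc
    exact hc
  exact denseRange_zpow_iff_pow.mp hz

end SiegelPE
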