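import Pool.Agent.Lib.MP_1bb0e8_an.Defs
import Pool.Agent.Lib.MP_1bb0e8_an.Powers

/-! # leaf: periodic points of the boundary are radial cluster values for residually many `t` -/

set_option autoImplicit false

open Filter Topology

namespace SiegelPE

private theorem ball_mul {s : ℝ} (h0 : 0 < s) (h1 : s < 1) (t : Circle) :
    (s : ℂ) * t ∈ Metric.ball (0 : ℂ) 1 := by
  rw [mem_ball_zero_iff, norm_mul, Circle.norm_coe, mul_one, Complex.norm_real, Real.norm_eq_abs,
    abs_of_pos h0]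
  exact h1

private theorem iter_eq {c : ℂ} {l : Circle} {ψ : ℂ → ℂ}
    (he : ∀ z ∈ Metric.ball (0 : ℂ) 1, ψ ((l : ℂ) * z) = quad c (ψ z)) {s : ℝ} (h0 : 0 < s)
    (h1 : s < 1) (t : Circle) (n : ℕ) :
    ψ ((s : ℂ) * ((l ^ n * t : Circle) : ℂ)) = (quad c)^[n] (ψ ((s : ℂ) * t)) := by
  induction n with
  | zero => simp
  | succ n ih =>
    rw [Function.iterate_succ_apply', ← ih, ← he _ (ball_mul h0 h1 _)]
    congr 1
    push_cast
    ring

private theorem open_slice {ψ : ℂ → ℂ} (hψ : ContinuousOn ψ (Metric.ball 0 1)) {s : ℝ} (h0 : 0 < s)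
    (h1 : s < 1) (p : ℂ) (ε : ℝ) : IsOpen {t : Circle | ‖ψ ((s : ℂ) * t) - p‖ < ε} := by
  have hc : Continuous fun t : Circle => ψ ((s : ℂ) * t) := by
    refine hψ.comp_continuous (continuous_const.mul continuous_subtype_val) fun t => ball_mul h0 h1 t
  exact isOpen_lt ((hc.sub continuous_const).norm) continuous_const

theorem periodic_residual (c : ℂ) (l : Circle) (hl : ∀ n : ℕ, 0 < n → l ^ n ≠ 1) (ψ : ℂ → ℂ)
    (hψ : ContinuousOn ψ (Metric.ball 0 1))
    (he : ∀ z ∈ Metric.ball (0 : ℂ) 1, ψ ((l : ℂ) * z) = quad c (ψ z)) {p : ℂ}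
    (hp : ∀ r ε : ℝ, r < 1 → 0 < ε →
      ∃ (s : ℝ) (t : Circle), r < s ∧ 0 < s ∧ s < 1 ∧ ‖ψ ((s : ℂ) * t) - p‖ < ε)
    {k : ℕ} (hk : 0 < k) (hpk : (quad c)^[k] p = p) :
    {t : Circle | p ∈ PS ψ t} ∈ residual Circle := by
  have hO : ∀ i : ℕ, {t : Circle | ∃ s : ℝ, 1 - 1 / ((i : ℝ) + 1) < s ∧ 0 < s ∧ s < 1 ∧
      ‖ψ ((s : ℂ) * t) - p‖ < 1 / ((i : ℝ) + 1)} ∈ residual Circle := by
    intro i
    have hi : 0 < 1 / ((i : ℝ) + 1) := by positivity
    apply residual_of_dense_open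
    · have e : {t : Circle | ∃ s : ℝ, 1 - 1 / ((i : ℝ) + 1) < s ∧ 0 < s ∧ s < 1 ∧
          ‖ψ ((s : ℂ) * t) - p‖ < 1 / ((i : ℝ) + 1)} =
          ⋃ s : {s : ℝ // 1 - 1 / ((i : ℝ) + 1) < s ∧ 0 < s ∧ s < 1},
            {t : Circle | ‖ψ ((s.1 : ℂ) * t) - p‖ < 1 / ((i : ℝ) + 1)} := by
        ext t
        constructor
        · rintro ⟨s, h1, h2, h3, h4⟩
          exact Set.mem_iUnion.2 ⟨⟨s, h1, h2, h3⟩, h4⟩
        · intro h
          obtain ⟨⟨s, h1, h2, h3⟩, h4⟩ := Set.mem_iUnion.1 h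
          exact ⟨s, h1, h2, h3, h4⟩
      rw [e]
      exact isOpen_iUnion fun s => open_slice hψ s.2.2.1 s.2.2.2 p _
    · rw [dense_iff_inter_open]
      intro A hA hne
      have hL : ∀ n : ℕ, 0 < n → (l ^ k) ^ n ≠ 1 := fun n hn => by
        rw [← pow_mul]
        exact hl _ (Nat.mul_pos hk hn)
      have hd := dense_pow (l ^ k) hL
      have hcov : ∀ t : Circle, ∃ m : ℕ, (l ^ k) ^ m * t ∈ A := by
        intro t
        have hop : IsOpen {g : Circle | g * t ∈ A} := hA.preimage (continuous_mul_const t)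
        obtain ⟨a, ha⟩ := hne
        have hne' : {g : Circle | g * t ∈ A}.Nonempty := ⟨a * t⁻¹, by
          simpa using ha⟩
        obtain ⟨g, hg1, m, hm⟩ := hd.inter_open_nonempty _ hop hne'
        exact ⟨m, by
          have hm' : (l ^ k) ^ m = g := hm
          rw [hm']
          exact hg1⟩
      have hcov' : (Set.univ : Set Circle) ⊆ ⋃ m : ℕ, {t : Circle | (l ^ k) ^ m * t ∈ A} := by
        intro t _
        obtain ⟨m, hm⟩ := hcov t
        exact Set.mem_iUnion.2 ⟨m, hm⟩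
      obtain ⟨F, hF⟩ := isCompact_univ.elim_finite_subcover
        (fun m : ℕ => {t : Circle | (l ^ k) ^ m * t ∈ A})
        (fun m => hA.preimage (continuous_const_mul _)) hcov'
      have hfix : ∀ m : ℕ, (quad c)^[k * m] p = p := by
        intro m
        rw [Function.iterate_mul]
        exact Function.iterate_fixed hpk m
      have hq : Continuous (quad c) := by
        unfold quad
        fun_prop
      have hev : ∀ᶠ w in 𝓝 p, ∀ m ∈ F, ‖(quad c)^[k * m] w - p‖ < 1 / ((i : ℝ) + 1) := by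
        rw [Filter.eventually_all_finset]
        intro m _
        have hc : Continuous fun w => ‖(quad c)^[k * m] w - p‖ :=
          ((hq.iterate _).sub continuous_const).norm
        have h0 : ‖(quad c)^[k * m] p - p‖ < 1 / ((i : ℝ) + 1) := by
          rw [hfix, sub_self, norm_zero]
          exact hi
        exact hc.continuousAt.eventually_lt continuousAt_const h0
      obtain ⟨δ, hδ, hw⟩ := Metric.eventually_nhds_iff.1 hev
      obtain ⟨s, t, h1, h2, h3, h4⟩ := hp (1 - 1 / ((i : ℝ) + 1)) δ (by linarith) hδ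
      have ht := hF (Set.mem_univ t)
      rw [Set.mem_iUnion₂] at ht
      obtain ⟨m, hm, htm⟩ := ht
      refine ⟨(l ^ k) ^ m * t, htm, s, h1, h2, h3, ?_⟩
      rw [← pow_mul, iter_eq he h2 h3 t (k * m)]
      exact hw (by rw [dist_eq_norm]; exact h4) m hm
  refine Filter.mem_of_superset (countable_iInter_mem.2 hO) ?_
  intro t ht
  refine Set.mem_iInter.2 fun r => ?_
  rw [Metric.mem_closure_iff]
  intro ε hε
  have hmin : 0 < min ε (1 - r.1) := lt_min hε (by linarith [r.2])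
  obtain ⟨i, hi⟩ := exists_nat_one_div_lt hmin
  obtain ⟨s, h1, h2, h3, h4⟩ := Set.mem_iInter.1 ht i
  have hi1 := hi.trans_le (min_le_left _ _)
  have hi2 := hi.trans_le (min_le_right _ _)
  refine ⟨ψ ((s : ℂ) * t), ⟨s, by linarith, h2, h3, rfl⟩, ?_⟩
  rw [dist_comm, dist_eq_norm]
  linarith

end SiegelPE
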