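import Pool.Agent.Lib.MP_1bb0e8_an.Defs

/-! # leaf: the cluster sets as cluster sets of paths -/

set_option autoImplicit false

open Filter Topology

namespace SiegelPE

theorem PS_eq (ψ : ℂ → ℂ) (t : Circle) : PS ψ t = Cl (fun s => ψ ((s : ℂ) * t)) := rfl

theorem PE_eq (φ : ℂ → ℂ) (t : Circle) : PE φ t = Cl (fun s => φ (((s⁻¹ : ℝ) : ℂ) * t)) := by
  ext w
  simp only [PE, Cl, Set.mem_iInter]
  constructor
  · intro h r
    have hρ0 : 0 < max r.1 (1 / 2) := lt_of_lt_of_le (by norm_num) (le_max_right _ _)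
    have hρ1 : max r.1 (1 / 2) < 1 := max_lt r.2 (by norm_num)
    refine closure_mono ?_ (h ⟨(max r.1 (1 / 2))⁻¹, (one_lt_inv₀ hρ0).2 hρ1⟩)
    rintro w' ⟨s, h1, h2, rfl⟩
    have hs : 0 < s := by linarith
    refine ⟨s⁻¹, ?_, inv_pos.2 hs, inv_lt_one_of_one_lt₀ h1, ?_⟩
    · refine lt_of_le_of_lt (le_max_left r.1 (1 / 2)) ?_
      exact (lt_inv_comm₀ hs hρ0).1 h2
    · simp only [inv_inv]
  · intro h r
    have hr0 : 0 < r.1 := by linarith [r.2]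
    refine closure_mono ?_ (h ⟨r.1⁻¹, inv_lt_one_of_one_lt₀ r.2⟩)
    rintro w' ⟨s, h1, h2, h3, rfl⟩
    refine ⟨s⁻¹, (one_lt_inv₀ h2).2 h3, ?_, rfl⟩
    exact (inv_lt_comm₀ hr0 h2).1 h1

theorem quad_mem_PS (c : ℂ) (l : Circle) (ψ : ℂ → ℂ)
    (he : ∀ z ∈ Metric.ball (0 : ℂ) 1, ψ ((l : ℂ) * z) = quad c (ψ z)) {p : ℂ} {t : Circle}
    (hp : p ∈ PS ψ t) : quad c p ∈ PS ψ (l * t) := by
  simp only [PS, Set.mem_iInter] at hp ⊢
  intro r
  have hc : Continuous (quad c) := by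
    unfold quad
    fun_prop
  refine map_mem_closure hc (hp r) ?_
  rintro w ⟨s, h1, h2, h3, rfl⟩
  refine ⟨s, h1, h2, h3, ?_⟩
  have hb : (s : ℂ) * (t : ℂ) ∈ Metric.ball (0 : ℂ) 1 := by
    rw [mem_ball_zero_iff, norm_mul, Circle.norm_coe, mul_one, Complex.norm_real,
      Real.norm_of_nonneg h2.le]
    exact h3
  rw [← he _ hb, Circle.coe_mul]
  congr 1
  ring

end SiegelPE
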