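import Pool.Agent.Lib.MP_1bb0e8_an.Defs

/-! # leaf: topological zero-one law for sets invariant under a countable dense set of rotations -/

set_option autoImplicit false

open Filter Topology

namespace SiegelPE

private theorem zo_nowhere (G U : Set Circle) (hU : IsOpen U) (h : G ⊆ U) :
    IsNowhereDense (interior (closure G) \ U) := by
  rw [IsNowhereDense, Set.eq_empty_iff_forall_notMem]
  intro x hx
  have h1 : interior (closure (interior (closure G) \ U)) ⊆ Uᶜ := by
    refine interior_subset.trans (closure_minimal ?_ hU.isClosed_compl)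
    intro y hy
    exact hy.2
  obtain ⟨y, hy1, hy2⟩ := mem_closure_iff.1 (interior_subset hx) _ isOpen_interior hx
  obtain ⟨z, hz1, hz2⟩ := mem_closure_iff.1 (interior_subset hy2.1) _ isOpen_interior hy1
  exact h1 hz1 (h hz2)

private theorem zo_diff (G : Set Circle) (hG : IsGδ G) :
    IsMeagre (interior (closure G) \ G) := by
  obtain ⟨f, hf, hGf⟩ := isGδ_iff_eq_iInter_nat.1 hG
  have h1 : interior (closure G) \ G ⊆ ⋃ n, interior (closure G) \ f n := by
    rintro x ⟨hx1, hx2⟩
    by_contra hcon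
    simp only [Set.mem_iUnion, not_exists] at hcon
    refine hx2 ?_
    rw [hGf]
    refine Set.mem_iInter.2 fun n => ?_
    by_contra hn
    exact hcon n ⟨hx1, hn⟩
  refine IsMeagre.mono h1 (isMeagre_iUnion fun n => IsNowhereDense.isMeagre
    (zo_nowhere G (f n) (hf n) ?_))
  rw [hGf]
  exact Set.iInter_subset _ n

theorem zero_one (Γ : Set Circle) (hc : Γ.Countable) (hd : Dense Γ) (N : Set Circle)
    (G : ℕ → Set Circle) (hG : ∀ j, IsGδ (G j)) (hN : N = ⋃ j, G j)
    (hinv : ∀ g ∈ Γ, ∀ t : Circle, g * t ∈ N ↔ t ∈ N) :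
    (N = ∅ ∨ Dense N) ∧ (IsMeagre N ∨ N ∈ residual Circle) := by
  constructor
  · rcases Set.eq_empty_or_nonempty N with h | ⟨t, ht⟩
    · exact Or.inl h
    · right
      have h1 : Dense ((fun g : Circle => g * t) '' Γ) :=
        ((Homeomorph.mulRight t).surjective.denseRange).dense_image
          (Homeomorph.mulRight t).continuous hd
      refine h1.mono ?_
      rintro _ ⟨g, hg, rfl⟩
      exact (hinv g hg t).2 ht
  · by_cases hm : IsMeagre N
    · exact Or.inl hm
    right
    have h1 : ∃ j, ¬ IsMeagre (G j) := by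
      by_contra hcon
      push Not at hcon
      exact hm (hN ▸ isMeagre_iUnion hcon)
    obtain ⟨j, hj⟩ := h1
    set A : Set Circle := interior (closure (G j)) with hA
    have hAne : A.Nonempty := by
      rw [Set.nonempty_iff_ne_empty]
      intro h
      exact hj (IsNowhereDense.isMeagre h)
    have hAm : IsMeagre (A \ N) := by
      refine IsMeagre.mono ?_ (zo_diff (G j) (hG j))
      rintro x ⟨hx1, hx2⟩
      refine ⟨hx1, fun h => hx2 ?_⟩
      rw [hN]
      exact Set.mem_iUnion.2 ⟨j, h⟩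
    have hmove : ∀ g ∈ Γ, IsMeagre ((fun x : Circle => g⁻¹ * x) ⁻¹' (A \ N)) := fun g _ =>
      IsMeagre.preimage_of_isOpenMap (Homeomorph.mulLeft g⁻¹).continuous
        (Homeomorph.mulLeft g⁻¹).isOpenMap hAm
    have hcov : Nᶜ ⊆ ⋃ g ∈ Γ, (fun x : Circle => g⁻¹ * x) ⁻¹' (A \ N) := by
      intro x hx
      obtain ⟨a, ha⟩ := hAne
      have hopen : IsOpen ((fun g : Circle => g⁻¹ * x) ⁻¹' A) :=
        isOpen_interior.preimage (continuous_inv.mul continuous_const)
      obtain ⟨g, hg, hgA⟩ := hd.exists_mem_open hopen ⟨x * a⁻¹, by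
        show (x * a⁻¹)⁻¹ * x ∈ A
        rw [mul_inv_rev, inv_inv, mul_assoc, inv_mul_cancel, mul_one]
        exact ha⟩
      refine Set.mem_biUnion hg ⟨hgA, fun h => hx ?_⟩
      have := (hinv g hg (g⁻¹ * x)).2 h
      rwa [mul_inv_cancel_left] at this
    have hfin : IsMeagre (⋃ g ∈ Γ, (fun x : Circle => g⁻¹ * x) ⁻¹' (A \ N)) :=
      isMeagre_biUnion hc hmove
    have := IsMeagre.mono hcov hfin
    rwa [IsMeagre, compl_compl] at this

end SiegelPE
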