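import Pool.Agent.Lib.MP_1bb0e8_an.Path
import Pool.Agent.Lib.MP_1bb0e8_an.Nontriv
import Pool.Agent.Lib.MP_1bb0e8_an.Borel
import Pool.Agent.Lib.MP_1bb0e8_an.Zero
import Pool.Agent.Lib.MP_1bb0e8_an.Powers
import Pool.Agent.Lib.MP_1bb0e8_an.Dyadic
import Pool.Agent.Lib.MP_1bb0e8_an.BoundS
import Pool.Agent.Lib.MP_1bb0e8_an.BoundE
import Pool.Agent.Lib.MP_1bb0e8_an.Periodic
import Pool.Agent.Lib.MP_1bb0e8_an.Sets
import Pool.Agent.Lib.MP_1bb0e8_an.Cont
import Pool.Agent.Lib.MP_1bb0e8_an.Bdry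

/-! # assembly (helper56) -/

set_option autoImplicit false

open Filter Topology

namespace SiegelPE

private theorem nolim_congr {γ δ : ℝ → ℂ} (h : ∀ s, 0 < s → s < 1 → γ s = δ s) :
    NoLim γ ↔ NoLim δ := by
  have he : γ =ᶠ[𝓝[<] 1] δ := by
    filter_upwards [Ioo_mem_nhdsLT (zero_lt_one' ℝ)] with s hs
    exact h s hs.1 hs.2
  unfold NoLim
  rw [not_iff_not]
  constructor
  · rintro ⟨w, hw⟩
    exact ⟨w, hw.congr' he⟩
  · rintro ⟨w, hw⟩
    exact ⟨w, hw.congr' he.symm⟩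

private theorem cont_quad (c : ℂ) : Continuous (quad c) := by
  unfold quad
  fun_prop

private theorem nolim_quad (c : ℂ) (γ : ℝ → ℂ) (hγ : ContinuousOn γ (Set.Ioo 0 1)) :
    NoLim (fun s => quad c (γ s)) ↔ NoLim γ := by
  unfold NoLim
  rw [not_iff_not]
  constructor
  · rintro ⟨w, hw⟩
    exact lim_of_sq c γ hγ hw
  · rintro ⟨w, hw⟩
    exact ⟨quad c w, ((cont_quad c).tendsto w).comp hw⟩

private theorem mem_ball_st (s : ℝ) (t : Circle) (h0 : 0 < s) (h1 : s < 1) :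
    ((s : ℂ) * t) ∈ Metric.ball (0 : ℂ) 1 := by
  rw [mem_ball_zero_iff, norm_mul, Complex.norm_real, Circle.norm_coe, mul_one,
    Real.norm_eq_abs, abs_of_pos h0]
  exact h1

private theorem norm_st (s : ℝ) (t : Circle) (h0 : 0 < s) :
    ‖((s⁻¹ : ℝ) : ℂ) * (t : ℂ)‖ = s⁻¹ := by
  rw [norm_mul, Complex.norm_real, Circle.norm_coe, mul_one,
    Real.norm_eq_abs, abs_of_pos (inv_pos.mpr h0)]

theorem main_S (c : ℂ) (l : Circle) (hl : ∀ n : ℕ, 0 < n → l ^ n ≠ 1) (S : Set ℂ)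
    (hS : IsOpen S) (ψ : ℂ → ℂ) (hψ : ContinuousOn ψ (Metric.ball 0 1))
    (hb : Set.BijOn ψ (Metric.ball 0 1) S)
    (he : ∀ z ∈ Metric.ball (0 : ℂ) 1, ψ ((l : ℂ) * z) = quad c (ψ z)) :
    (∀ t : Circle, (PS ψ (l * t)).Nontrivial ↔ (PS ψ t).Nontrivial) ∧
      ({t : Circle | (PS ψ t).Nontrivial} = ∅ ∨ Dense {t : Circle | (PS ψ t).Nontrivial}) ∧
      (IsMeagre {t : Circle | (PS ψ t).Nontrivial} ∨
        {t : Circle | (PS ψ t).Nontrivial} ∈ residual Circle) ∧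
      (∀ p ∈ frontier S, ∀ k : ℕ, 0 < k → (quad c)^[k] p = p →
        {t : Circle | p ∈ PS ψ t} ∈ residual Circle ∧
        (quad c p ≠ p → {t : Circle | (PS ψ t).Nontrivial} ∈ residual Circle)) := by
  have hbd : ∀ z ∈ Metric.ball (0 : ℂ) 1, ‖ψ z‖ ≤ 1 + ‖c‖ := bound_S c l ψ hψ he
  have hiff : ∀ t : Circle, (PS ψ t).Nontrivial ↔ NoLim (fun s => ψ ((s : ℂ) * t)) := by
    intro t
    rw [PS_eq]
    exact cl_nontrivial_iff _ (r := 0) (B := 1 + ‖c‖) one_pos
      (fun s h0 h1 => hbd _ (mem_ball_st s t h0 h1))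
  have hpath : ∀ t : Circle, ContinuousOn (fun s : ℝ => ψ ((s : ℂ) * t)) (Set.Ioo 0 1) := by
    intro t
    have h1 := cont_S ψ hψ
    exact h1.comp (f := fun s : ℝ => (s, t)) (Continuous.continuousOn (by fun_prop))
      (fun s hs => ⟨hs, Set.mem_univ _⟩)
  have hinv : ∀ t : Circle, (PS ψ (l * t)).Nontrivial ↔ (PS ψ t).Nontrivial := by
    intro t
    rw [hiff, hiff, ← nolim_quad c _ (hpath t)]
    apply nolim_congr
    intro s h0 h1
    rw [← he _ (mem_ball_st s t h0 h1)]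
    congr 1
    push_cast
    ring
  have hset : {t : Circle | (PS ψ t).Nontrivial} =
      {t : Circle | NoLim (fun s => ψ ((s : ℂ) * t))} := by
    ext t
    exact hiff t
  obtain ⟨G, hG, hGu⟩ := nolim_eq_iUnion (fun s t => ψ ((s : ℂ) * t)) (cont_S ψ hψ)
  have hz := zero_one (Set.range (fun n : ℕ => l ^ n)) (Set.countable_range _) (dense_pow l hl)
    {t : Circle | (PS ψ t).Nontrivial} G hG (hset.trans hGu) (by
      rintro g ⟨n, rfl⟩
      induction n with
      | zero =>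
        intro t
        simp
      | succ n ih =>
        intro t
        have h1 : l ^ (n + 1) * t = l * (l ^ n * t) := by
          rw [pow_succ]
          group
        show (PS ψ (l ^ (n + 1) * t)).Nontrivial ↔ (PS ψ t).Nontrivial
        rw [h1, hinv]
        exact ih t)
  refine ⟨hinv, hz.1, hz.2, ?_⟩
  intro p hp k hk hpk
  have hres := periodic_residual c l hl ψ hψ he
    (fun r ε hr hε => boundary_seq ψ S hS hψ hb hp r ε hr hε) hk hpk
  refine ⟨hres, ?_⟩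
  intro hne
  obtain ⟨t0, ht0⟩ := (dense_of_mem_residual hres).nonempty
  have hq := quad_mem_PS c l ψ he (p := p) (t := t0) ht0
  have hres2 := periodic_residual c l hl ψ hψ he (p := quad c p) (by
      intro r ε hr hε
      have h1 := Set.mem_iInter.mp hq ⟨r, hr⟩
      obtain ⟨w, ⟨s, hs1, hs2, hs3, rfl⟩, hw⟩ := Metric.mem_closure_iff.mp h1 ε hε
      refine ⟨s, l * t0, hs1, hs2, hs3, ?_⟩
      rw [← dist_eq_norm, dist_comm]
      exact hw) hk (by
      rw [← Function.iterate_succ_apply, Function.iterate_succ_apply', hpk])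
  filter_upwards [hres, hres2] with t h1 h2
  exact ⟨quad c p, h2, p, h1, hne⟩

theorem main_E (c : ℂ) (u : Circle) (φ : ℂ → ℂ) (hφ : ContinuousOn φ {z : ℂ | 1 < ‖z‖})
    (he : ∀ z : ℂ, 1 < ‖z‖ → φ ((u : ℂ) * z ^ 2) = quad c (φ z)) :
    (∀ t : Circle, (PE φ (u * t ^ 2)).Nontrivial ↔ (PE φ t).Nontrivial) ∧
      ({t : Circle | (PE φ t).Nontrivial} = ∅ ∨ Dense {t : Circle | (PE φ t).Nontrivial}) ∧
      (IsMeagre {t : Circle | (PE φ t).Nontrivial} ∨
        {t : Circle | (PE φ t).Nontrivial} ∈ residual Circle) := by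
  obtain ⟨B, hB⟩ := bound_E c u φ hφ he
  have hiff : ∀ t : Circle, (PE φ t).Nontrivial ↔
      NoLim (fun s => φ (((s⁻¹ : ℝ) : ℂ) * t)) := by
    intro t
    rw [PE_eq]
    refine cl_nontrivial_iff _ (r := 1 / 4) (B := B) (by norm_num) ?_
    intro s h0 h1
    have hs : 0 < s := by linarith
    have h2 := norm_st s t hs
    apply hB
    · rw [h2]
      exact (one_lt_inv₀ hs).mpr h1
    · rw [h2, inv_le_comm₀ hs (by norm_num)]
      linarith
  have hpath : ∀ t : Circle,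
      ContinuousOn (fun s : ℝ => φ (((s⁻¹ : ℝ) : ℂ) * t)) (Set.Ioo 0 1) := by
    intro t
    have h1 := cont_E φ hφ
    exact h1.comp (f := fun s : ℝ => (s, t)) (Continuous.continuousOn (by fun_prop))
      (fun s hs => ⟨hs, Set.mem_univ _⟩)
  have hinv : ∀ t : Circle, (PE φ (u * t ^ 2)).Nontrivial ↔ (PE φ t).Nontrivial := by
    intro t
    rw [hiff, hiff, ← nolim_quad c _ (hpath t)]
    have h1 : NoLim (fun s => φ (((s⁻¹ : ℝ) : ℂ) * ((u * t ^ 2 : Circle) : ℂ))) ↔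
        NoLim (fun s => φ ((((s ^ 2)⁻¹ : ℝ) : ℂ) * ((u * t ^ 2 : Circle) : ℂ))) := by
      unfold NoLim
      rw [not_iff_not]
      constructor
      · rintro ⟨w, hw⟩
        exact ⟨w, (lim_sq_param (fun s => φ (((s⁻¹ : ℝ) : ℂ) * ((u * t ^ 2 : Circle) : ℂ)))
          w).mpr hw⟩
      · rintro ⟨w, hw⟩
        exact ⟨w, (lim_sq_param (fun s => φ (((s⁻¹ : ℝ) : ℂ) * ((u * t ^ 2 : Circle) : ℂ)))
          w).mp hw⟩
    rw [h1]
    apply nolim_congr
    intro s h0 h1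
    have h2 : 1 < ‖((s⁻¹ : ℝ) : ℂ) * (t : ℂ)‖ := by
      rw [norm_st s t h0]
      exact (one_lt_inv₀ h0).mpr h1
    rw [← he _ h2]
    congr 1
    push_cast
    ring
  have hset : {t : Circle | (PE φ t).Nontrivial} =
      {t : Circle | NoLim (fun s => φ (((s⁻¹ : ℝ) : ℂ) * t))} := by
    ext t
    exact hiff t
  obtain ⟨G, hG, hGu⟩ := nolim_eq_iUnion (fun s t => φ (((s⁻¹ : ℝ) : ℂ) * t)) (cont_E φ hφ)
  have hz := zero_one {w : Circle | ∃ m : ℕ, w ^ (2 ^ m) = 1} countable_dyadic dense_dyadic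
    {t : Circle | (PE φ t).Nontrivial} G hG (hset.trans hGu) (by
      rintro g ⟨m, hm⟩
      induction m generalizing g with
      | zero =>
        intro t
        have hg : g = 1 := by simpa using hm
        rw [hg, one_mul]
      | succ m ih =>
        intro t
        have h1 : (g ^ 2) ^ (2 ^ m) = 1 := by
          rw [← pow_mul, ← pow_succ']
          exact hm
        have h2 := ih (g ^ 2) h1 (u * t ^ 2)
        have h3 : g ^ 2 * (u * t ^ 2) = u * (g * t) ^ 2 := by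
          rw [mul_pow]
          exact mul_left_comm _ _ _
        have h4 : (PE φ (u * (g * t) ^ 2)).Nontrivial ↔ (PE φ (u * t ^ 2)).Nontrivial := by
          rw [← h3]
          exact h2
        show (PE φ (g * t)).Nontrivial ↔ (PE φ t).Nontrivial
        rw [← hinv (g * t), ← hinv t]
        exact h4)
  exact ⟨hinv, hz.1, hz.2⟩

end SiegelPE
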