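import Pool.Agent.Lib.MP_1bb0e8_an.Defs

/-! # leaf: paths and their squares -/

set_option autoImplicit false

open Filter Topology

namespace SiegelPE

private theorem path_tri (z a : ℂ) : 2 * ‖a‖ ≤ ‖z - a‖ + ‖z + a‖ := by
  have h1 : ‖(z + a) - (z - a)‖ ≤ ‖z + a‖ + ‖z - a‖ := norm_sub_le _ _
  have e : (z + a) - (z - a) = (2 : ℂ) * a := by ring
  have e2 : ‖(2 : ℂ)‖ = 2 := by simp
  rw [e, norm_mul, e2] at h1
  linarith

private theorem path_side (γ : ℝ → ℂ) {a : ℂ} (ha : a ≠ 0)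
    (h : Tendsto (fun s => γ s ^ 2) (𝓝[<] 1) (𝓝 (a ^ 2)))
    (he : ∀ᶠ s in 𝓝[<] (1 : ℝ), ‖γ s - a‖ < ‖γ s + a‖) : Tendsto γ (𝓝[<] 1) (𝓝 a) := by
  rw [tendsto_iff_norm_sub_tendsto_zero]
  have h1 : Tendsto (fun s => ‖γ s ^ 2 - a ^ 2‖ / ‖a‖) (𝓝[<] 1) (𝓝 0) := by
    have h2 := (tendsto_iff_norm_sub_tendsto_zero.1 h).div_const ‖a‖
    rw [zero_div] at h2
    exact h2
  refine squeeze_zero' (Eventually.of_forall fun s => norm_nonneg _) ?_ h1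
  filter_upwards [he] with s hs
  have ha' : 0 < ‖a‖ := norm_pos_iff.2 ha
  have h2 := path_tri (γ s) a
  rw [le_div_iff₀ ha']
  have h3 : γ s ^ 2 - a ^ 2 = (γ s - a) * (γ s + a) := by ring
  rw [h3, norm_mul]
  exact mul_le_mul_of_nonneg_left (by linarith) (norm_nonneg _)

/-- If `γ ^ 2 + c` has a limit then so has the (continuous) path `γ`. -/
theorem lim_of_sq (c : ℂ) (γ : ℝ → ℂ) (hγ : ContinuousOn γ (Set.Ioo 0 1)) {w : ℂ}
    (h : Tendsto (fun s => γ s ^ 2 + c) (𝓝[<] 1) (𝓝 w)) :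
    ∃ v, Tendsto γ (𝓝[<] 1) (𝓝 v) := by
  have h' : Tendsto (fun s => γ s ^ 2) (𝓝[<] 1) (𝓝 (w - c)) := by
    have h1 := h.sub_const c
    simpa using h1
  obtain ⟨a, ha⟩ := IsAlgClosed.exists_pow_nat_eq (w - c) (show 0 < 2 by norm_num)
  rw [← ha] at h'
  by_cases ha0 : a = 0
  · refine ⟨0, ?_⟩
    rw [tendsto_zero_iff_norm_tendsto_zero]
    have h1 : Tendsto (fun s => Real.sqrt ‖γ s ^ 2‖) (𝓝[<] 1) (𝓝 (Real.sqrt ‖a ^ 2‖)) :=
      (Real.continuous_sqrt.tendsto _).comp h'.norm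
    have h2 : Real.sqrt ‖a ^ 2‖ = 0 := by rw [ha0]; simp
    have h3 : (fun s => Real.sqrt ‖γ s ^ 2‖) = fun s => ‖γ s‖ := by
      funext s
      rw [norm_pow, Real.sqrt_sq (norm_nonneg _)]
    rw [h2, h3] at h1
    exact h1
  · have hapos : 0 < ‖a‖ := norm_pos_iff.2 ha0
    have h2 : ∀ᶠ s in 𝓝[<] (1 : ℝ), ‖γ s ^ 2 - a ^ 2‖ < ‖a‖ ^ 2 :=
      (tendsto_iff_norm_sub_tendsto_zero.1 h').eventually_lt_const (by positivity)
    obtain ⟨ρ, hρ, hsub⟩ := mem_nhdsLT_iff_exists_Ioo_subset.1 h2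
    have hρ1 : ρ < 1 := hρ
    set m := max ρ 0 with hm
    have hm1 : m < 1 := max_lt hρ1 one_pos
    have hI : ∀ s ∈ Set.Ioo m 1, s ∈ Set.Ioo (0 : ℝ) 1 ∧ ‖γ s ^ 2 - a ^ 2‖ < ‖a‖ ^ 2 := by
      intro s hs
      refine ⟨⟨(le_max_right ρ 0).trans_lt hs.1, hs.2⟩, ?_⟩
      exact hsub ⟨(le_max_left ρ 0).trans_lt hs.1, hs.2⟩
    have hmem : Set.Ioo m 1 ∈ 𝓝[<] (1 : ℝ) := Ioo_mem_nhdsLT hm1
    have hc1 : ContinuousOn (fun s => ‖γ s - a‖ - ‖γ s + a‖) (Set.Ioo m 1) := by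
      have hc2 : ContinuousOn γ (Set.Ioo m 1) := hγ.mono fun s hs => (hI s hs).1
      exact ((hc2.sub continuousOn_const).norm).sub ((hc2.add continuousOn_const).norm)
    have hnz : ∀ s ∈ Set.Ioo m 1, ‖γ s - a‖ - ‖γ s + a‖ ≠ 0 := by
      intro s hs h0
      have h3 := (hI s hs).2
      have h4 := path_tri (γ s) a
      have h5 : γ s ^ 2 - a ^ 2 = (γ s - a) * (γ s + a) := by ring
      rw [h5, norm_mul] at h3
      have h6 : ‖γ s - a‖ = ‖γ s + a‖ := by linarith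
      rw [h6] at h3 h4
      nlinarith [norm_nonneg (γ s + a)]
    obtain ⟨s0, hs0⟩ : (Set.Ioo m 1).Nonempty := Set.nonempty_Ioo.2 hm1
    rcases lt_or_gt_of_ne (hnz s0 hs0) with hneg | hpos
    · refine ⟨a, path_side γ ha0 h' ?_⟩
      filter_upwards [hmem] with s hs
      by_contra hcon
      have h3 : 0 ≤ ‖γ s - a‖ - ‖γ s + a‖ := by linarith
      obtain ⟨x, hx, hx0⟩ := isPreconnected_Ioo.intermediate_value hs0 hs hc1
        (show (0 : ℝ) ∈ Set.Icc _ _ from ⟨hneg.le, h3⟩)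
      exact hnz x hx hx0
    · refine ⟨-a, path_side γ (neg_ne_zero.2 ha0) (by rw [neg_sq]; exact h') ?_⟩
      filter_upwards [hmem] with s hs
      rw [sub_neg_eq_add, ← sub_eq_add_neg]
      by_contra hcon
      have h3 : ‖γ s - a‖ - ‖γ s + a‖ ≤ 0 := by linarith
      obtain ⟨x, hx, hx0⟩ := isPreconnected_Ioo.intermediate_value hs hs0 hc1
        (show (0 : ℝ) ∈ Set.Icc _ _ from ⟨h3, hpos.le⟩)
      exact hnz x hx hx0

end SiegelPE
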